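import Pool.Agent.Y6.M.Stm

/-! Job EM-AVG of helper6: averaging for a finite group of modes rotated with a large speed,
complex-valued version. -/

set_option autoImplicit false

namespace Pool.Agent.Y394.EM.AVG

open Set
open scoped ComplexConjugate

theorem inner_rot (r : ℝ) (y F : ℂ) :
    inner ℝ y (Complex.I * (r : ℂ) * y + F) = inner ℝ y F := by
  rw [inner_add_right]
  have : inner ℝ y (Complex.I * (r : ℂ) * y) = 0 := by
    rw [Complex.inner]
    simp only [Complex.mul_re, Complex.mul_im, Complex.conj_re, Complex.conj_im, Complex.I_re,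
      Complex.I_im, Complex.ofReal_re, Complex.ofReal_im]
    ring
  rw [this, zero_add]

theorem norm_itau {τ : ℝ} (h : τ ^ 2 = 1) (S : ℝ) (hS : 0 < S) (z : ℂ) :
    ‖Complex.I * (τ : ℂ) * z / (S : ℂ)‖ = ‖z‖ / S := by
  have h1 : |τ| = 1 := by
    rw [← sq_abs] at h
    have h2 : (|τ| - 1) * (|τ| + 1) = 0 := by linear_combination h
    rcases mul_eq_zero.1 h2 with h3 | h3
    · linarith
    · have := abs_nonneg τ
      linarith
  rw [norm_div, norm_mul, norm_mul, Complex.norm_I, Complex.norm_real, Complex.norm_real,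
    Real.norm_eq_abs, Real.norm_eq_abs, h1, abs_of_pos hS, one_mul, one_mul]

theorem t_AVG : Pool.Agent.Y6.M.S_AVG := by
  intro b n hb
  set K : ℝ := (2 * b + 1) * n + (b * n + 1) ^ 2 with hK
  have hn : (0 : ℝ) ≤ n := Nat.cast_nonneg n
  have hK0 : 0 ≤ K := by positivity
  refine ⟨(n + 1) * Real.exp (60 * K) + 1, ?_, ?_⟩
  · have : 0 ≤ (n + 1) * Real.exp (60 * K) := by positivity
    linarith
  intro ι _ τ S θ h η v H H' E hcard hτ2 hS hθ hθ60 hh hη hv hH hHb hE hv0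
  set δ : ℝ := h / S + η with hδ
  have hSpos : 0 < S := by linarith
  have hSne : (S : ℂ) ≠ 0 := by exact_mod_cast hSpos.ne'
  have hhS : 0 ≤ h / S := by positivity
  have hδ0 : 0 ≤ δ := by positivity
  have hcard' : (Fintype.card ι : ℝ) ≤ n := by exact_mod_cast hcard
  let y : ι → ℝ → ℂ := fun j t => v j t - Complex.I * (τ j : ℂ) * H j t / (S : ℂ)
  let F : ι → ℝ → ℂ := fun j t => E j t - Complex.I * (τ j : ℂ) * H' j t / (S : ℂ)
  have hyd : ∀ j t, t ∈ Icc (0 : ℝ) θ → HasDerivWithinAt (y j)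
      (Complex.I * ((S * τ j : ℝ) : ℂ) * y j t + F j t) (Icc 0 θ) t := by
    intro j t ht
    have h1 := (hv j t ht).sub
      (((hH j t ht).const_mul (Complex.I * (τ j : ℂ))).div_const (S : ℂ))
    refine h1.congr_deriv ?_
    change Complex.I * ((S * τ j : ℝ) : ℂ) * v j t + H j t + E j t -
        Complex.I * (τ j : ℂ) * H' j t / (S : ℂ) =
      Complex.I * ((S * τ j : ℝ) : ℂ) * (v j t - Complex.I * (τ j : ℂ) * H j t / (S : ℂ)) +
        (E j t - Complex.I * (τ j : ℂ) * H' j t / (S : ℂ))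
    have h2 : (τ j : ℂ) ^ 2 = 1 := by exact_mod_cast congrArg (fun x : ℝ => (x : ℂ)) (hτ2 j)
    have h3 : Complex.I * ((S * τ j : ℝ) : ℂ) * (Complex.I * (τ j : ℂ) * H j t / (S : ℂ)) =
        -H j t := by
      push_cast
      have h4 : Complex.I * ((S : ℂ) * (τ j : ℂ)) * (Complex.I * (τ j : ℂ) * H j t / (S : ℂ)) =
          Complex.I ^ 2 * (τ j : ℂ) ^ 2 * H j t := by
        field_simp
      rw [h4, h2, Complex.I_sq]
      ring
    rw [mul_sub, h3]
    ring
  let Y : ℝ → ℝ := fun t => ∑ j, ‖y j t‖ ^ 2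
  have hYd : ∀ t ∈ Icc (0 : ℝ) θ, HasDerivWithinAt Y
      (∑ j, 2 * inner ℝ (y j t) (F j t)) (Icc 0 θ) t := by
    intro t ht
    have h1 : ∀ j ∈ (Finset.univ : Finset ι), HasDerivWithinAt (fun t => ‖y j t‖ ^ 2)
        (2 * inner ℝ (y j t) (F j t)) (Icc 0 θ) t := by
      intro j _
      have := (hyd j t ht).norm_sq
      rw [inner_rot] at this
      exact this
    exact HasDerivWithinAt.fun_sum h1
  have hvy : ∀ j t, t ∈ Icc (0 : ℝ) θ → ‖v j t‖ ≤ ‖y j t‖ + h / S := by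
    intro j t ht
    have h1 : v j t = y j t + Complex.I * (τ j : ℂ) * H j t / (S : ℂ) := by
      change v j t = (v j t - Complex.I * (τ j : ℂ) * H j t / (S : ℂ)) +
        Complex.I * (τ j : ℂ) * H j t / (S : ℂ)
      ring
    have h2 : ‖Complex.I * (τ j : ℂ) * H j t / (S : ℂ)‖ ≤ h / S := by
      rw [norm_itau (hτ2 j) S hSpos]
      exact div_le_div_of_nonneg_right (hHb j t ht).1 hSpos.le
    calc ‖v j t‖ = ‖y j t + Complex.I * (τ j : ℂ) * H j t / (S : ℂ)‖ := by rw [← h1]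
      _ ≤ ‖y j t‖ + ‖Complex.I * (τ j : ℂ) * H j t / (S : ℂ)‖ := norm_add_le _ _
      _ ≤ _ := by linarith
  have hYb : ∀ t ∈ Icc (0 : ℝ) θ,
      ∑ j, 2 * inner ℝ (y j t) (F j t) ≤ K * (Y t + δ ^ 2) := by
    intro t ht
    set s : ℝ := ∑ j, ‖y j t‖ with hs
    have hs0 : 0 ≤ s := Finset.sum_nonneg (fun j _ => norm_nonneg _)
    have hY0 : 0 ≤ Y t := Finset.sum_nonneg (fun j _ => sq_nonneg _)
    have hsY : s ^ 2 ≤ n * Y t := by
      have h1 : s ^ 2 ≤ (Fintype.card ι : ℝ) * ∑ j, ‖y j t‖ ^ 2 := by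
        have := sq_sum_le_card_mul_sum_sq (s := (Finset.univ : Finset ι)) (f := fun j => ‖y j t‖)
        simpa using this
      exact h1.trans (mul_le_mul_of_nonneg_right hcard' hY0)
    have hsv : ∑ i, ‖v i t‖ ≤ s + n * (h / S) := by
      calc ∑ i, ‖v i t‖ ≤ ∑ i, (‖y i t‖ + h / S) := Finset.sum_le_sum (fun i _ => hvy i t ht)
        _ = s + (Fintype.card ι : ℝ) * (h / S) := by
            rw [Finset.sum_add_distrib, Finset.sum_const, nsmul_eq_mul, Finset.card_univ]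
        _ ≤ _ := by
            have := mul_le_mul_of_nonneg_right hcard' hhS
            linarith
    have hrem : ∀ j, ‖F j t‖ ≤ b * s + (b * n + 1) * δ := by
      intro j
      have h1 := hE j t ht
      have h2 : ‖Complex.I * (τ j : ℂ) * H' j t / (S : ℂ)‖ ≤ h / S := by
        rw [norm_itau (hτ2 j) S hSpos]
        exact div_le_div_of_nonneg_right (hHb j t ht).2 hSpos.le
      have h3 : ‖F j t‖ ≤ ‖E j t‖ + ‖Complex.I * (τ j : ℂ) * H' j t / (S : ℂ)‖ := norm_sub_le _ _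
      have h4 : b * ∑ i, ‖v i t‖ ≤ b * (s + n * (h / S)) := mul_le_mul_of_nonneg_left hsv hb
      have h5 : 0 ≤ b * n * η := by positivity
      have h6 : (b * n + 1) * δ = b * n * (h / S) + h / S + b * n * η + η := by rw [hδ]; ring
      rw [h6]
      linarith
    have h7 : ∑ j, 2 * inner ℝ (y j t) (F j t) ≤
        ∑ j, 2 * ‖y j t‖ * (b * s + (b * n + 1) * δ) := by
      apply Finset.sum_le_sum
      intro j _
      have h71 : inner ℝ (y j t) (F j t) ≤ ‖y j t‖ * ‖F j t‖ := real_inner_le_norm _ _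
      have h72 : ‖y j t‖ * ‖F j t‖ ≤ ‖y j t‖ * (b * s + (b * n + 1) * δ) :=
        mul_le_mul_of_nonneg_left (hrem j) (norm_nonneg _)
      calc 2 * inner ℝ (y j t) (F j t) ≤ 2 * (‖y j t‖ * (b * s + (b * n + 1) * δ)) := by linarith
        _ = _ := by ring
    have h8 : ∑ j, 2 * ‖y j t‖ * (b * s + (b * n + 1) * δ) =
        2 * s * (b * s + (b * n + 1) * δ) := by
      rw [← Finset.sum_mul, ← Finset.mul_sum]
    rw [h8] at h7
    refine h7.trans ?_
    have h9 : 2 * s * ((b * n + 1) * δ) ≤ s ^ 2 + ((b * n + 1) * δ) ^ 2 := by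
      nlinarith [sq_nonneg (s - (b * n + 1) * δ)]
    have h10 : (2 * b + 1) * s ^ 2 ≤ (2 * b + 1) * (n * Y t) :=
      mul_le_mul_of_nonneg_left hsY (by linarith)
    have h11 : 0 ≤ (b * n + 1) ^ 2 * Y t := by positivity
    have h12 : 0 ≤ (2 * b + 1) * n * δ ^ 2 := by positivity
    rw [hK]
    nlinarith
  have hY0 : Y 0 ≤ n * δ ^ 2 := by
    have h1 : ∀ j, ‖y j 0‖ ^ 2 ≤ δ ^ 2 := by
      intro j
      have h0 : (0 : ℝ) ∈ Icc (0 : ℝ) θ := ⟨le_refl _, hθ⟩
      have h2 : y j 0 = -(Complex.I * (τ j : ℂ) * H j 0 / (S : ℂ)) := by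
        change v j 0 - Complex.I * (τ j : ℂ) * H j 0 / (S : ℂ) = _
        rw [hv0]; ring
      have h3 : ‖y j 0‖ ≤ δ := by
        rw [h2, norm_neg, norm_itau (hτ2 j) S hSpos]
        have h4 : ‖H j 0‖ / S ≤ h / S := div_le_div_of_nonneg_right (hHb j 0 h0).1 hSpos.le
        linarith
      exact pow_le_pow_left₀ (norm_nonneg _) h3 2
    calc Y 0 ≤ ∑ _j : ι, δ ^ 2 := Finset.sum_le_sum (fun j _ => h1 j)
      _ = (Fintype.card ι : ℝ) * δ ^ 2 := by
          rw [Finset.sum_const, nsmul_eq_mul, Finset.card_univ]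
      _ ≤ n * δ ^ 2 := mul_le_mul_of_nonneg_right hcard' (sq_nonneg _)
  -- Gronwall
  let g : ℝ → ℝ := fun t => Real.exp (-K * t) * (Y t + δ ^ 2)
  have hgd : ∀ t ∈ Icc (0 : ℝ) θ, HasDerivWithinAt g
      (Real.exp (-K * t) * (-K) * (Y t + δ ^ 2) + Real.exp (-K * t) *
        (∑ j, 2 * inner ℝ (y j t) (F j t))) (Icc 0 θ) t := by
    intro t ht
    have h1 : HasDerivWithinAt (fun t : ℝ => Real.exp (-K * t)) (Real.exp (-K * t) * (-K))
        (Icc 0 θ) t := by
      have h2 : HasDerivWithinAt (fun t : ℝ => -K * t) (-K) (Icc 0 θ) t := by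
        simpa using (hasDerivWithinAt_id t (Icc 0 θ)).const_mul (-K)
      exact h2.exp
    exact h1.mul ((hYd t ht).add_const (δ ^ 2))
  have hganti : AntitoneOn g (Icc 0 θ) := by
    apply antitoneOn_of_deriv_nonpos (convex_Icc 0 θ)
    · exact fun t ht => (hgd t ht).continuousWithinAt
    · intro t ht
      rw [interior_Icc] at ht ⊢
      exact ((hgd t (Ioo_subset_Icc_self ht)).hasDerivAt
        (Icc_mem_nhds ht.1 ht.2)).differentiableAt.differentiableWithinAt
    · intro t ht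
      rw [interior_Icc] at ht
      have ht' := Ioo_subset_Icc_self ht
      rw [((hgd t ht').hasDerivAt (Icc_mem_nhds ht.1 ht.2)).deriv]
      have h1 := hYb t ht'
      have h2 : 0 < Real.exp (-K * t) := Real.exp_pos _
      nlinarith
  intro j t ht
  have h0 : (0 : ℝ) ∈ Icc (0 : ℝ) θ := ⟨le_refl _, hθ⟩
  have h1 := hganti h0 ht ht.1
  have h2 : Real.exp (-K * t) * (Y t + δ ^ 2) ≤ Y 0 + δ ^ 2 := by
    have : g 0 = Y 0 + δ ^ 2 := by
      change Real.exp (-K * 0) * (Y 0 + δ ^ 2) = _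
      rw [mul_zero, Real.exp_zero, one_mul]
    rw [← this]; exact h1
  have h3 : Y t + δ ^ 2 ≤ Real.exp (60 * K) * ((n + 1) * δ ^ 2) := by
    have h4 : Y t + δ ^ 2 = Real.exp (K * t) * (Real.exp (-K * t) * (Y t + δ ^ 2)) := by
      rw [← mul_assoc, ← Real.exp_add]
      rw [show K * t + -K * t = 0 by ring, Real.exp_zero, one_mul]
    have hYt : 0 ≤ Y t + δ ^ 2 :=
      add_nonneg (Finset.sum_nonneg (fun j _ => sq_nonneg _)) (sq_nonneg _)
    rw [h4]
    apply mul_le_mul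
    · apply Real.exp_le_exp.2
      have h5 := ht.2
      nlinarith
    · linarith
    · positivity
    · positivity
  have h5 : ‖y j t‖ ^ 2 ≤ Y t :=
    Finset.single_le_sum (f := fun j => ‖y j t‖ ^ 2) (fun j _ => sq_nonneg _) (Finset.mem_univ j)
  have h6 : ‖y j t‖ ≤ (n + 1) * Real.exp (60 * K) * δ := by
    refine le_trans (le_abs_self _) (abs_le_of_sq_le_sq ?_ ?_)
    · have h7 : 1 ≤ (n + 1 : ℝ) * Real.exp (60 * K) := by
        have h8 : 1 ≤ Real.exp (60 * K) := Real.one_le_exp (by positivity)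
        exact one_le_mul_of_one_le_of_one_le (by linarith) h8
      have h9 : (n + 1 : ℝ) * Real.exp (60 * K) * δ ^ 2 ≤
          ((n + 1) * Real.exp (60 * K)) ^ 2 * δ ^ 2 := by
        apply mul_le_mul_of_nonneg_right _ (sq_nonneg _)
        rw [sq]
        exact le_mul_of_one_le_left (by linarith) h7
      have h10 : Real.exp (60 * K) * ((n + 1) * δ ^ 2) = (n + 1) * Real.exp (60 * K) * δ ^ 2 := by
        ring
      have h11 : 0 ≤ δ ^ 2 := sq_nonneg δ
      rw [mul_pow]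
      linarith
    · positivity
  have h7 := hvy j t ht
  have h8 : h / S ≤ δ := by rw [hδ]; linarith
  calc ‖v j t‖ ≤ ‖y j t‖ + h / S := h7
    _ ≤ (n + 1) * Real.exp (60 * K) * δ + δ := by linarith
    _ = _ := by rw [hδ]; ring

end Pool.Agent.Y394.EM.AVG
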